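import Mathlib
import Pool.Agent.X206.RC.Main
set_option autoImplicit false
open MeasureTheory Filter Topology

namespace Pool.Agent.Results.MP_d3a052_pr.MomentAsymptotics

/-- For every `k ≥ 2` the `k`-th moment of the random solid angle satisfies
`2 ^ d * d * m(d, k) → c_k` for some `c_k > 0`, that is `m(d, k) ∼ c_k / (2 ^ d * d)`. -/
theorem result : ∀ k : ℕ, 2 ≤ k → ∃ c : ℝ, 0 < c ∧
    Tendsto (fun d : ℕ => X206.RC.m d k / (c / (2 ^ d * (d : ℝ)))) atTop (𝓝 1) := by
  intro k hk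
  obtain ⟨c, hc, h⟩ := X206.RC.m_lim k hk
  refine ⟨c, hc, ?_⟩
  have h1 := h.div_const c
  rw [div_self hc.ne'] at h1
  refine h1.congr' ?_
  filter_upwards [eventually_gt_atTop 0] with d hd
  have hd' : (d : ℝ) ≠ 0 := by exact_mod_cast hd.ne'
  field_simp

end Pool.Agent.Results.MP_d3a052_pr.MomentAsymptotics
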